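import Pool.Agent.TH672.SD.Tft

set_option autoImplicit false

/-!
# `TFNP` true and `CON` false after the addition of very few strings

For every oracle `O` there are additional oracles `T` with arbitrarily few strings relative to
which there is no complete total search problem. If `O` decides the set of tautologies then there
is a p-optimal proof system relative to `join O T`. The construction is in the library
`Pool.Agent.TH672.SD`; it uses the libraries of the starting files on oracle algorithms
(`Pool.Agent.H628R3.RO`) and on the join of oracles (`Pool.Agent.W900.SP`).
-/

namespace Pool.Agent.Results.MP_2c6a5a_lc.SparseSeparation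

open Filter Pool.Agent.H628R3.RO Pool.Agent.W900.SP Pool.Agent.TH672.SD
open Pool.Agent.NPC (pairBits)
open Pool.Agent.W900.SP (join)

/-- Propositional formulas. -/
inductive Formula : Type
  | var : ℕ → Formula
  | neg : Formula → Formula
  | conj : Formula → Formula → Formula

/-- The truth value of a formula. -/
def Formula.eval (v : ℕ → Bool) : Formula → Bool
  | var i => v i
  | neg a => !(a.eval v)
  | conj a b => a.eval v && b.eval v

/-- The string of a formula (a prefix code). -/
def Formula.code : Formula → List Bool
  | var i => false :: false :: (List.replicate i true ++ [false])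
  | neg a => false :: true :: a.code
  | conj a b => true :: (a.code ++ b.code)

/-- The set of the strings of the propositional tautologies. -/
def TAUT : Set (List Bool) := {x | ∃ a : Formula, a.code = x ∧ ∀ v : ℕ → Bool, a.eval v = true}

/-- `CON` relative to `A`: there is no p-optimal proof system for `TAUT`. (The proof systems and
their simulations are computed in polynomial time with the oracle `A`, `TAUT` is unchanged.) -/
def CON (A : Oracle) : Prop := ¬ ∃ P, IsPOptimal A TAUT P

/-- The relation `R` is a total `NP` search problem relative to `A`. -/
def IsProblem (A : Oracle) (R : List Bool → List Bool → Prop) : Prop :=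
  (∃ V : List Bool → List Bool, IsFP A V ∧ ∀ x y, R x y ↔ V (pairBits x y) = [true]) ∧
    (∃ p : Polynomial ℕ, ∀ x y, R x y → y.length ≤ p.eval x.length) ∧ ∀ x, ∃ y, R x y

/-- The search problem `R` is many-one reducible to the search problem `Q`. -/
def Reduces (A : Oracle) (R Q : List Bool → List Bool → Prop) : Prop :=
  ∃ f g : List Bool → List Bool, IsFP A f ∧ IsFP A g ∧ ∀ x y, Q (f x) y → R x (g (pairBits x y))

/-- `TFNP` relative to `A`: no total `NP` search problem is complete. -/
def TFNP (A : Oracle) : Prop := ¬ ∃ Q, IsProblem A Q ∧ ∀ R, IsProblem A R → Reduces A R Q

open Classical in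
/-- The oracle which tells the values of `σ`: it contains the pairs of `z` and an initial segment
of `σ z`. -/
noncomputable def values (σ : List Bool → List Bool) : Oracle :=
  fun q => decide (∃ z u, q = pairBits z u ∧ u <+: σ z)

/-- The input `x` together with a pad of length `2 ^ (|x| / k)`: with this input an algorithm that
is fast in the length of its input may run for a time polynomial in `2 ^ (|x| / k)`. -/
def padded (k : ℕ) (x : List Bool) : List Bool :=
  pairBits x (List.replicate (2 ^ (x.length / k)) true)

/-- Relative to `A` no total search problem `Q` is hard for the total search problems with unique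
solutions, even for Turing reductions in time `2 ^ o(n)`: there is a total search problem `R` with
unique solutions such that every algorithm `M` which may ask `A` and the values of a function `σ`
that solves `Q`, and which runs in time polynomial in `2 ^ (n / k)`, `k` large, fails to solve `R`
on inputs of arbitrarily large length, for suitable `σ`. -/
def NoHard (A : Oracle) : Prop := ∀ Q, IsProblem A Q → ∃ R, IsProblem A R ∧
  (∀ x y y', R x y → R x y' → y = y') ∧ (∀ M : Alg, ∃ k₀, ∀ k ≥ k₀, ∀ N,
    ∃ σ : List Bool → List Bool, (∀ z, Q z (σ z)) ∧ ∃ x : List Bool, N ≤ x.length ∧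
      ¬ ∃ y, M.out (join A (values σ)) (padded k x) = some y ∧ R x y) ∧ ¬ Reduces A R Q

/-- `T` has at most `g n` strings of length at most `n`, for all `n`. -/
def Few (g : ℕ → ℕ) (T : Oracle) : Prop :=
  ∀ n, {q | T q = true ∧ q.length ≤ n}.Finite ∧ {q | T q = true ∧ q.length ≤ n}.ncard ≤ g n

/-- The code of formulas is a prefix code. -/
theorem code_inj : ∀ (a b : Formula) (r s : List Bool), a.code ++ r = b.code ++ s → a = b ∧ r = s
  | .var i, b, r, s, h => by
    cases b with
    | var j =>
      simp only [Formula.code, List.cons_append, List.cons.injEq, true_and,
        List.append_assoc] at h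
      have : i = j ∧ r = s := by
        induction i generalizing j with
        | zero =>
          cases j with
          | zero => simpa using h
          | succ j => simp [List.replicate_succ] at h
        | succ i ih =>
          cases j with
          | zero => simp [List.replicate_succ] at h
          | succ j =>
            simp only [List.replicate_succ, List.cons_append, List.cons.injEq, true_and] at h
            obtain ⟨h1, h2⟩ := ih j h
            exact ⟨by rw [h1], h2⟩
      exact ⟨by rw [this.1], this.2⟩
    | neg b => simp [Formula.code] at h
    | conj b c => simp [Formula.code] at h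
  | .neg a, b, r, s, h => by
    cases b with
    | var j => simp [Formula.code] at h
    | neg b =>
      simp only [Formula.code, List.cons_append, List.cons.injEq, true_and] at h
      obtain ⟨h1, h2⟩ := code_inj a b r s h
      exact ⟨by rw [h1], h2⟩
    | conj b c => simp [Formula.code] at h
  | .conj a a', b, r, s, h => by
    cases b with
    | var j => simp [Formula.code] at h
    | neg b => simp [Formula.code] at h
    | conj b b' =>
      simp only [Formula.code, List.cons_append, List.cons.injEq, true_and,
        List.append_assoc] at h
      obtain ⟨h1, h2⟩ := code_inj a b _ _ h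
      obtain ⟨h3, h4⟩ := code_inj a' b' _ _ h2
      exact ⟨by rw [h1, h3], h4⟩

theorem TAUT_nonempty : TAUT.Nonempty := by
  refine ⟨_, Formula.neg (Formula.conj (Formula.var 0) (Formula.neg (Formula.var 0))), rfl,
    fun v => ?_⟩
  simp only [Formula.eval]
  cases v 0 <;> rfl

/-- For every oracle `O` and every function `g`: if `g` tends to infinity, however slowly, then
there is a second oracle `T` with at most `g n` strings of length at most `n`, for all `n`, such
that relative to `join O T` the conjecture `TFNP` is true, in the strong sense of `NoHard`, and,
if `TAUT` is in `P` relative to `O`, the conjecture `CON` is false; if `g` does not tend to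
infinity then no second oracle `T` with at most `g n` strings of length at most `n` changes the
truth values of `TFNP` and `CON`. -/
theorem result (O : Oracle) (g : ℕ → ℕ) :
    (Tendsto g atTop atTop → ∃ T : Oracle, Few g T ∧ NoHard (join O T) ∧ TFNP (join O T) ∧
      (IsP O TAUT → ¬ CON (join O T))) ∧
    (¬ Tendsto g atTop atTop → ∀ T : Oracle, Few g T →
      (TFNP (join O T) ↔ TFNP O) ∧ (CON (join O T) ↔ CON O)) := by
  constructor
  · intro hg
    obtain ⟨T, h1, h2⟩ := mainF' O g hg
    have h3 : NoHard (join O T) := h2
    refine ⟨T, h1, h3, ?_, fun hO hC => hC (pOpt_of_isP (isP_join T hO) TAUT_nonempty)⟩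
    rintro ⟨Q, hQ, hc⟩
    obtain ⟨R, hR, _, _, h4⟩ := h3 Q hQ
    exact h4 (hc R hR)
  · intro hg T hT
    have hfin := finite_of_atMost hg hT
    constructor
    · refine inv_finite (X := TFNP) ?_ hfin
      intro A A' h hA
      simpa only [TFNP, IsProblem, Reduces, h] using hA
    · refine inv_finite (X := CON) ?_ hfin
      intro A A' h hA
      simpa only [CON, IsPOptimal, IsProofSystem, h] using hA

/-- An oracle relative to which `TFNP` is true and `CON` is false. -/
theorem separation : ∃ B : Oracle, TFNP B ∧ ¬ CON B := by
  classical
  have h : IsP (fun x => decide (x ∈ TAUT)) TAUT := by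
    have h1 : IsFP (fun x => decide (x ∈ TAUT)) (fun x => [decide (x ∈ TAUT)]) := by
      have := IsFP.tt (A := fun x => decide (x ∈ TAUT)) (Q := fun x : List Bool => [x])
        (H := fun q => q.2) (Pool.Agent.NPC.Poly.cons Pool.Agent.NPC.Poly.id
          (Pool.Agent.NPC.Poly.const [])) (Pool.Agent.NPC.Poly.snd Pool.Agent.NPC.Poly.id)
      exact this
    exact ⟨_, h1, fun x => by simp⟩
  obtain ⟨T, _, _, h2, h3⟩ := (result (fun x => decide (x ∈ TAUT)) (fun n => n)).1 tendsto_id
  exact ⟨_, h2, h3 h⟩

end Pool.Agent.Results.MP_2c6a5a_lc.SparseSeparation
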